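import Pool.Agent.Helper60.SP.Cont
import Pool.Agent.Helper60.SP.Long
import Pool.Agent.Helper60.SP.Own

/-!
# SP-WORDA: a cut gives a word, the case with both slots of the root open
-/

set_option autoImplicit false

namespace Pool.Agent.Helper88.SP

open Pool.Agent.Helper60.SP

variable {n : ℕ}

theorem reach_le {blk : ℕ × ℕ → Bool → Prop} {v : ℕ × ℕ} (h : Reach n blk v) : v.1 + v.2 ≤ n := by
  induction h with
  | root => simp
  | step v s _ hlt _ _ =>
    cases s <;> simp [ch] <;> omega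

open Classical in
/-- The points of the reached nodes. -/
noncomputable def RR (n : ℕ) (blk : ℕ × ℕ → Bool → Prop) : Finset (ℤ × ℤ) :=
  ((Finset.range (n + 1) ×ˢ Finset.range (n + 1)).filter (fun v => Reach n blk v)).image
    (fun v => ((v.1 : ℤ), (v.2 : ℤ)))

theorem mem_RR {blk : ℕ × ℕ → Bool → Prop} {x : ℤ × ℤ} :
    x ∈ RR n blk ↔ 0 ≤ x.1 ∧ 0 ≤ x.2 ∧ Reach n blk (toNd x) := by
  classical
  unfold RR
  rw [Finset.mem_image]
  constructor
  · rintro ⟨v, hv, rfl⟩
    rw [Finset.mem_filter] at hv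
    refine ⟨by simp, by simp, ?_⟩
    have : toNd ((v.1 : ℤ), (v.2 : ℤ)) = v := by
      simp [toNd]
    rw [this]
    exact hv.2
  · rintro ⟨h1, h2, hr⟩
    refine ⟨toNd x, ?_, ?_⟩
    · rw [Finset.mem_filter, Finset.mem_product, Finset.mem_range, Finset.mem_range]
      have := reach_le hr
      exact ⟨⟨by omega, by omega⟩, hr⟩
    · ext
      · simp [toNd, h1]
      · simp [toNd, h2]

theorem card_RR (n : ℕ) (blk : ℕ × ℕ → Bool → Prop) : (RR n blk).card ≤ (n + 1) ^ 2 := by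
  classical
  unfold RR
  refine Finset.card_image_le.trans ((Finset.card_filter_le _ _).trans ?_)
  rw [Finset.card_product, Finset.card_range, sq]

theorem vec_zero : vec 0 = (1, 0) := rfl
theorem vec_one : vec 1 = (0, 1) := rfl

theorem blk_true {blk : ℕ × ℕ → Bool → Prop} (hcut : Cut n blk) {x : ℤ × ℤ} (hx : x ∈ RR n blk)
    (h : x + vec 0 ∉ RR n blk) : blk (toNd x) true := by
  by_contra hb
  obtain ⟨h1, h2, hr⟩ := mem_RR.1 hx
  rcases Nat.lt_or_ge ((toNd x).1 + (toNd x).2) n with hlt | hge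
  · apply h
    rw [mem_RR]
    refine ⟨?_, ?_, ?_⟩
    · simp [vec_zero]; omega
    · simp [vec_zero]; omega
    · have := Reach.step _ true hr hlt hb
      have e : toNd (x + vec 0) = ch (toNd x) true := by
        simp only [toNd, vec_zero, ch, Prod.fst_add, Prod.snd_add, if_true]
        ext
        · simp; omega
        · simp
      rw [e]
      exact this
  · exact hb (hcut _ hr (le_antisymm (reach_le hr) hge) true)

theorem blk_false {blk : ℕ × ℕ → Bool → Prop} (hcut : Cut n blk) {x : ℤ × ℤ} (hx : x ∈ RR n blk)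
    (h : x + vec 1 ∉ RR n blk) : blk (toNd x) false := by
  by_contra hb
  obtain ⟨h1, h2, hr⟩ := mem_RR.1 hx
  rcases Nat.lt_or_ge ((toNd x).1 + (toNd x).2) n with hlt | hge
  · apply h
    rw [mem_RR]
    refine ⟨?_, ?_, ?_⟩
    · simp [vec_one]; omega
    · simp [vec_one]; omega
    · have := Reach.step _ false hr hlt hb
      have e : toNd (x + vec 1) = ch (toNd x) false := by
        simp only [toNd, vec_one, ch, Prod.fst_add, Prod.snd_add]
        ext
        · simp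
        · simp; omega
      rw [e]
      exact this
  · exact hb (hcut _ hr (le_antisymm (reach_le hr) hge) false)

/-- All outgoing pairs of a boundary walk are blocked. -/
theorem outs_blk {blk : ℕ × ℕ → Bool → Prop} (hcut : Cut n blk) (w : ℕ → Fin 3) (m : ℕ)
    (hb : ∀ i, (walk w i).1 ∈ RR n blk ∧ (walk w i).1 + vec (walk w i).2 ∉ RR n blk) :
    ∀ p ∈ outs w m, blk p.1 p.2 := by
  intro p hp
  unfold outs at hp
  rw [Finset.mem_image] at hp
  obtain ⟨i, hi, rfl⟩ := hp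
  rw [Finset.mem_filter] at hi
  obtain ⟨_, hd⟩ := hi
  obtain ⟨hx, hy⟩ := hb i
  rcases hd with hd | hd
  · rw [hd] at hy
    have := blk_true hcut hx hy
    simpa [hd] using this
  · rw [hd] at hy
    have := blk_false hcut hx hy
    simpa [hd] using this

theorem owners_nd {blk : ℕ × ℕ → Bool → Prop} (w : ℕ → Fin 3) (m : ℕ)
    (hb : ∀ i, (walk w i).1 ∈ RR n blk ∧ (walk w i).1 + vec (walk w i).2 ∉ RR n blk) :
    ∀ v ∈ owners w m, IsNd n v ∧ v ≠ (0, 0) := by
  intro v hv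
  unfold owners at hv
  rw [Finset.mem_erase, Finset.mem_image] at hv
  obtain ⟨hne, p, hp, rfl⟩ := hv
  unfold outs at hp
  rw [Finset.mem_image] at hp
  obtain ⟨i, hi, rfl⟩ := hp
  exact ⟨reach_le (mem_RR.1 (hb i).1).2.2, hne⟩

theorem length_le {blk : ℕ × ℕ → Bool → Prop} (w : ℕ → Fin 3) (m : ℕ)
    (hinj : ∀ i < m, ∀ j < m, walk w i = walk w j → i = j)
    (hb : ∀ i, (walk w i).1 ∈ RR n blk ∧ (walk w i).1 + vec (walk w i).2 ∉ RR n blk) :
    m ≤ 4 * (n + 1) ^ 2 := by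
  classical
  have h1 : (Finset.range m).card ≤ (RR n blk ×ˢ (Finset.univ : Finset (Fin 4))).card := by
    apply Finset.card_le_card_of_injOn (fun i => walk w i)
    · intro i _
      have := (hb i).1
      simp [this]
    · intro i hi j hj hij
      simp only [Finset.coe_range, Set.mem_Iio] at hi hj
      exact hinj i hi j hj hij
  rw [Finset.card_range, Finset.card_product] at h1
  have h2 := card_RR n blk
  have h3 : (Finset.univ : Finset (Fin 4)).card = 4 := by simp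
  rw [h3] at h1
  nlinarith

theorem mem_owners {w : ℕ → Fin 3} {m i : ℕ} (hi : i < m)
    (hd : (walk w i).2 = 0 ∨ (walk w i).2 = 1) (hne : toNd (walk w i).1 ≠ (0, 0)) :
    toNd (walk w i).1 ∈ owners w m := by
  unfold owners outs
  rw [Finset.mem_erase, Finset.mem_image]
  refine ⟨hne, (toNd (walk w i).1, decide ((walk w i).2 = 0)), ?_, rfl⟩
  rw [Finset.mem_image]
  exact ⟨i, by rw [Finset.mem_filter, Finset.mem_range]; exact ⟨hi, hd⟩, rfl⟩

theorem diff_two (a b : ℤ) (d : Fin 4) (hb : 0 ≤ b) (h : d = 0 → b ≠ 0) :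
    (if 1 ≤ (hd ((a, b), d)).2 then (1 : ℤ) else 0) -
      (if 1 ≤ (tl ((a, b), d)).2 then (1 : ℤ) else 0) ≤ 0 := by
  fin_cases d
  · have hb0 : b ≠ 0 := h rfl
    change (if 1 ≤ b + 1 then (1 : ℤ) else 0) - (if 1 ≤ b then (1 : ℤ) else 0) ≤ 0
    split_ifs <;> omega
  · change (if 1 ≤ b + 1 then (1 : ℤ) else 0) - (if 1 ≤ b + 1 then (1 : ℤ) else 0) ≤ 0
    split_ifs <;> omega
  · change (if 1 ≤ b then (1 : ℤ) else 0) - (if 1 ≤ b + 1 then (1 : ℤ) else 0) ≤ 0
    split_ifs <;> omega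
  · change (if 1 ≤ b then (1 : ℤ) else 0) - (if 1 ≤ b then (1 : ℤ) else 0) ≤ 0
    split_ifs <;> omega

theorem diff_one (a b : ℤ) (d : Fin 4) (ha : 0 ≤ a) (h : d = 1 → a ≠ 0) :
    0 ≤ (if 1 ≤ (hd ((a, b), d)).1 then (1 : ℤ) else 0) -
      (if 1 ≤ (tl ((a, b), d)).1 then (1 : ℤ) else 0) := by
  fin_cases d
  · change 0 ≤ (if 1 ≤ a + 1 then (1 : ℤ) else 0) - (if 1 ≤ a + 1 then (1 : ℤ) else 0)
    split_ifs <;> omega
  · have ha0 : a ≠ 0 := h rfl
    change 0 ≤ (if 1 ≤ a then (1 : ℤ) else 0) - (if 1 ≤ a + 1 then (1 : ℤ) else 0)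
    split_ifs <;> omega
  · change 0 ≤ (if 1 ≤ a then (1 : ℤ) else 0) - (if 1 ≤ a then (1 : ℤ) else 0)
    split_ifs <;> omega
  · change 0 ≤ (if 1 ≤ a + 1 then (1 : ℤ) else 0) - (if 1 ≤ a then (1 : ℤ) else 0)
    split_ifs <;> omega

/-- Some pair `((a, 0), 0)` occurs. -/
theorem exists_right (w : ℕ → Fin 3) (m : ℕ) (hm : 0 < m) (hc : walk w m = walk w 0)
    (hq : ∀ i, 0 ≤ (walk w i).1.1 ∧ 0 ≤ (walk w i).1.2) :
    ∃ i < m, (walk w i).2 = 0 ∧ (walk w i).1.2 = 0 := by
  by_contra hno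
  push Not at hno
  have hs := sum_closed w m hc (fun c => if 1 ≤ c.2 then 1 else 0)
  have hle : ∀ i ∈ Finset.range m, (fun i => ((if 1 ≤ (hd (walk w i)).2 then (1 : ℤ) else 0) -
      (if 1 ≤ (tl (walk w i)).2 then (1 : ℤ) else 0))) i ≤ (fun _ => (0 : ℤ)) i := by
    intro i hi
    have hi' := Finset.mem_range.1 hi
    have hn := hno i hi'
    obtain ⟨q1, q2⟩ := hq i
    exact diff_two (walk w i).1.1 (walk w i).1.2 (walk w i).2 q2 hn
  have hlt : (fun i => ((if 1 ≤ (hd (walk w i)).2 then (1 : ℤ) else 0) -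
      (if 1 ≤ (tl (walk w i)).2 then (1 : ℤ) else 0))) 0 < (fun _ => (0 : ℤ)) 0 := by
    simp [walk, hd, tl]
  have := Finset.sum_lt_sum hle ⟨0, Finset.mem_range.2 hm, hlt⟩
  simp only [Finset.sum_const_zero] at this
  rw [hs] at this
  exact lt_irrefl _ this

/-- Some pair `((0, b), 1)` occurs. -/
theorem exists_up (w : ℕ → Fin 3) (m : ℕ) (hm : 0 < m) (hc : walk w m = walk w 0)
    (hq : ∀ i, 0 ≤ (walk w i).1.1 ∧ 0 ≤ (walk w i).1.2) :
    ∃ i < m, (walk w i).2 = 1 ∧ (walk w i).1.1 = 0 := by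
  have h1 : walk w 1 = ((0, 0), 3) := by
    have e : walk w 1 = turn (w 0) ((0, 0), 2) := rfl
    have q := hq 1
    rw [e] at q ⊢
    generalize w 0 = t at q ⊢
    fin_cases t
    · rfl
    · exfalso
      have : (turn 1 (((0 : ℤ), (0 : ℤ)), (2 : Fin 4))).1.2 = -1 := rfl
      have q2 := q.2
      change 0 ≤ (turn 1 (((0 : ℤ), (0 : ℤ)), (2 : Fin 4))).1.2 at q2
      rw [this] at q2
      omega
    · exfalso
      have : (turn 2 (((0 : ℤ), (0 : ℤ)), (2 : Fin 4))).1.2 = -1 := rfl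
      have q2 := q.2
      change 0 ≤ (turn 2 (((0 : ℤ), (0 : ℤ)), (2 : Fin 4))).1.2 at q2
      rw [this] at q2
      omega
  have hm1 : 1 < m := by
    rcases Nat.lt_or_ge 1 m with h | h
    · exact h
    · exfalso
      have : m = 1 := by omega
      subst this
      rw [h1] at hc
      have : (3 : Fin 4) = 2 := congrArg Prod.snd hc
      exact absurd this (by decide)
  by_contra hno
  push Not at hno
  have hs := sum_closed w m hc (fun c => if 1 ≤ c.1 then 1 else 0)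
  have hle : ∀ i ∈ Finset.range m, (fun _ => (0 : ℤ)) i ≤
      (fun i => ((if 1 ≤ (hd (walk w i)).1 then (1 : ℤ) else 0) -
      (if 1 ≤ (tl (walk w i)).1 then (1 : ℤ) else 0))) i := by
    intro i hi
    have hi' := Finset.mem_range.1 hi
    have hn := hno i hi'
    obtain ⟨q1, q2⟩ := hq i
    exact diff_one (walk w i).1.1 (walk w i).1.2 (walk w i).2 q1 hn
  have hlt : (fun _ => (0 : ℤ)) 1 < (fun i => ((if 1 ≤ (hd (walk w i)).1 then (1 : ℤ) else 0) -
      (if 1 ≤ (tl (walk w i)).1 then (1 : ℤ) else 0))) 1 := by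
    simp [h1, hd, tl]
  have := Finset.sum_lt_sum hle ⟨1, Finset.mem_range.2 hm1, hlt⟩
  simp only [Finset.sum_const_zero] at this
  rw [hs] at this
  exact lt_irrefl _ this

theorem word_open (hn : 1 ≤ n) (blk : ℕ × ℕ → Bool → Prop) (hcut : Cut n blk)
    (h0 : ∀ s, ¬ blk (0, 0) s) : ∃ (w : ℕ → Fin 3) (m : ℕ), m ≤ 4 * (n + 1) ^ 2 ∧
      m ≤ 4 * (owners w m).card ∧ 2 ≤ (owners w m).card ∧
      (∀ v ∈ owners w m, IsNd n v ∧ v ≠ (0, 0)) ∧ ∀ p ∈ outs w m, blk p.1 p.2 := by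
  classical
  have hR0 : ((0 : ℤ), (0 : ℤ)) ∈ RR n blk := by
    rw [mem_RR]
    exact ⟨le_rfl, le_rfl, Reach.root⟩
  obtain ⟨w, m, hm, hc, hinj, hb⟩ := contour (RR n blk) hR0
    (fun x hx => ⟨(mem_RR.1 hx).1, (mem_RR.1 hx).2.1⟩)
  have hq : ∀ i, 0 ≤ (walk w i).1.1 ∧ 0 ≤ (walk w i).1.2 := fun i =>
    ⟨(mem_RR.1 (hb i).1).1, (mem_RR.1 (hb i).1).2.1⟩
  have hout := outs_blk hcut w m hb
  have hown := owners_card w m hc hinj (fun i _ => hq i)
  have hemp : (outs w m).filter (fun p => p.1 = (0, 0)) = ∅ := by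
    rw [Finset.filter_eq_empty_iff]
    intro p hp h
    have := hout p hp
    rw [h] at this
    exact h0 _ this
  rw [hemp, Finset.card_empty, mul_zero, add_zero] at hown
  refine ⟨w, m, length_le w m hinj hb, hown, ?_, owners_nd w m hb, hout⟩
  have hne : ∀ i < m, ((walk w i).2 = 0 ∨ (walk w i).2 = 1) → toNd (walk w i).1 ≠ (0, 0) := by
    intro i hi hd he
    have hmem : (toNd (walk w i).1, decide ((walk w i).2 = 0)) ∈ outs w m := by
      unfold outs
      rw [Finset.mem_image]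
      exact ⟨i, by rw [Finset.mem_filter, Finset.mem_range]; exact ⟨hi, hd⟩, rfl⟩
    have := hout _ hmem
    rw [he] at this
    exact h0 _ this
  obtain ⟨i, hi, hi0, hi2⟩ := exists_right w m hm hc hq
  obtain ⟨j, hj, hj1, hj2⟩ := exists_up w m hm hc hq
  have oi := mem_owners hi (Or.inl hi0) (hne i hi (Or.inl hi0))
  have oj := mem_owners hj (Or.inr hj1) (hne j hj (Or.inr hj1))
  have hdiff : toNd (walk w i).1 ≠ toNd (walk w j).1 := by
    intro he
    apply hne i hi (Or.inl hi0)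
    have e1 : (toNd (walk w j).1).1 = 0 := by simp [toNd, hj2]
    have e2 : (toNd (walk w i).1).2 = 0 := by simp [toNd, hi2]
    rw [← he] at e1
    exact Prod.ext e1 e2
  have hsub : {toNd (walk w i).1, toNd (walk w j).1} ⊆ owners w m := by
    intro v hv
    rw [Finset.mem_insert, Finset.mem_singleton] at hv
    rcases hv with rfl | rfl
    · exact oi
    · exact oj
  calc 2 = ({toNd (walk w i).1, toNd (walk w j).1} : Finset (ℕ × ℕ)).card :=
        (Finset.card_pair hdiff).symm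
    _ ≤ _ := Finset.card_le_card hsub

end Pool.Agent.Helper88.SP
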